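import Pool.Agent.R626.GLI

/-! There is a Gödel set `V` whose first-order Gödel logic admits effective validity-equivalent
prenex normal forms but is not arithmetical. -/

namespace Pool.Agent.Results.MP_80950a_lc.PrenexNotArithmetical

open Pool.Agent.R626.GL

theorem result : ∃ V : Set unitInterval, IsGoedelSet V ∧ AdmitsPrenex V ∧ ¬ Arithmetical V :=
  ⟨Vdown, isGoedelSet_Vdown, admitsPrenex_Vdown, not_arithmetical_Vdown⟩

end Pool.Agent.Results.MP_80950a_lc.PrenexNotArithmetical
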